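import Mathlib

/-!
Counting permutations with prescribed values.
-/

namespace Pool.Agent.W6.PS

open Equiv Finset

variable {n : ℕ}

open Classical in
/-- the permutations with `π (P k) = V k` for all `k` -/
noncomputable def agree {κ : Type*} (P V : κ → Fin n) : Finset (Perm (Fin n)) :=
  Finset.univ.filter (fun π => ∀ k, π (P k) = V k)

theorem mem_agree {κ : Type*} {P V : κ → Fin n} {π : Perm (Fin n)} :
    π ∈ agree P V ↔ ∀ k, π (P k) = V k := by
  simp [agree]

theorem card_fix {κ : Type*} [Fintype κ] {P : κ → Fin n} (hP : Function.Injective P) :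
    (agree P P).card = (n - Fintype.card κ).factorial := by
  classical
  have h1 : (agree P P).card = Fintype.card {f : Perm (Fin n) // ∀ a, ¬ (a ∉ Set.range P) →
      f a = a} := by
    rw [Fintype.card_subtype]
    congr 1
    ext f
    rw [mem_agree]
    simp only [not_not, Set.mem_range, forall_exists_index, forall_apply_eq_imp_iff,
      Finset.mem_filter, Finset.mem_univ, true_and]
  rw [h1, ← Fintype.card_congr (Equiv.Perm.subtypeEquivSubtypePerm (fun x => x ∉ Set.range P)),
    Fintype.card_perm]
  congr 1
  have h2 : Fintype.card {x : Fin n // x ∉ Set.range P} = (Finset.univ.image P)ᶜ.card := by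
    rw [Fintype.card_subtype]
    congr 1
    ext x
    simp
  rw [h2, Finset.card_compl, Fintype.card_fin, Finset.card_image_of_injective _ hP,
    Finset.card_univ]

theorem card_agree_of_mem {κ : Type*} [Fintype κ] {P V : κ → Fin n} (hP : Function.Injective P)
    {π0 : Perm (Fin n)} (h0 : π0 ∈ agree P V) :
    (agree P V).card = (n - Fintype.card κ).factorial := by
  classical
  rw [← card_fix hP]
  rw [mem_agree] at h0
  refine Finset.card_bij' (fun π _ => π0⁻¹ * π) (fun π _ => π0 * π) ?_ ?_ ?_ ?_
  · intro π hπ
    rw [mem_agree] at hπ ⊢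
    intro k
    rw [Perm.mul_apply, hπ k, ← h0 k]
    simp
  · intro π hπ
    rw [mem_agree] at hπ ⊢
    intro k
    rw [Perm.mul_apply, hπ k, h0 k]
  · intro π hπ
    simp
  · intro π hπ
    simp

theorem card_agree_le {κ : Type*} [Fintype κ] {P : κ → Fin n} (hP : Function.Injective P)
    (V : κ → Fin n) : (agree P V).card ≤ (n - Fintype.card κ).factorial := by
  rcases (agree P V).eq_empty_or_nonempty with h | ⟨π0, h0⟩
  · rw [h]; simp
  · exact (card_agree_of_mem hP h0).le

theorem card_agree {κ : Type*} [Fintype κ] {P V : κ → Fin n} (hP : Function.Injective P)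
    (hV : Function.Injective V) : (agree P V).card = (n - Fintype.card κ).factorial := by
  classical
  set e : {x // x ∈ Set.range P} ≃ {x // x ∈ Set.range V} :=
    (Equiv.ofInjective P hP).symm.trans (Equiv.ofInjective V hV) with he
  refine card_agree_of_mem (π0 := e.extendSubtype) hP ?_
  rw [mem_agree]
  intro k
  rw [Equiv.extendSubtype_apply_of_mem e (P k) ⟨k, rfl⟩]
  simp only [he, Equiv.trans_apply]
  have : (Equiv.ofInjective P hP).symm ⟨P k, ⟨k, rfl⟩⟩ = k := by
    rw [Equiv.symm_apply_eq]
    rfl
  rw [this]
  rfl

/-- adjacency pattern: `P (k, false)` and `P (k, true)` carry consecutive values, increasing or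
decreasing according to `s k` -/
theorem card_adj_le {κ : Type*} [Fintype κ] (P : κ × Bool → Fin n) (hP : Function.Injective P)
    (s : κ → Bool) (S : Finset (Perm (Fin n)))
    (hS : ∀ π ∈ S, ∀ k, (s k = true → (π (P (k, true))).val = (π (P (k, false))).val + 1) ∧
      (s k = false → (π (P (k, false))).val = (π (P (k, true))).val + 1)) :
    S.card ≤ n ^ (Fintype.card κ) * (n - 2 * Fintype.card κ).factorial := by
  classical
  rcases Nat.eq_zero_or_pos n with hn | hn
  · subst hn
    have h1 : IsEmpty κ := ⟨fun k => (P (k, true)).elim0⟩
    rw [Fintype.card_eq_zero]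
    refine le_trans (Finset.card_le_univ S) ?_
    rw [Fintype.card_perm]
    simp
  · haveI : NeZero n := ⟨hn.ne'⟩
    -- the value function attached to `c`
    let V : (κ → Fin n) → κ × Bool → Fin n := fun c kb =>
      if kb.2 = s kb.1 then Fin.ofNat n ((c kb.1).val + 1) else c kb.1
    have hsub : S ⊆ Finset.univ.biUnion (fun c : κ → Fin n => agree P (V c)) := by
      intro π hπ
      rw [Finset.mem_biUnion]
      refine ⟨fun k => π (P (k, !(s k))), Finset.mem_univ _, ?_⟩
      rw [mem_agree]
      rintro ⟨k, b⟩
      have h1 := hS π hπ k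
      simp only [V]
      by_cases hb : b = s k
      · rw [if_pos hb]
        apply Fin.ext
        rw [Fin.val_ofNat]
        cases hs : s k
        · have h2 := h1.2 hs
          rw [hs] at hb
          subst hb
          simp only [Bool.not_false]
          rw [← h2, Nat.mod_eq_of_lt (π (P (k, false))).isLt]
        · have h2 := h1.1 hs
          rw [hs] at hb
          subst hb
          simp only [Bool.not_true]
          rw [← h2, Nat.mod_eq_of_lt (π (P (k, true))).isLt]
      · rw [if_neg hb]
        have : b = !(s k) := by
          revert hb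
          cases b <;> cases s k <;> simp
        rw [this]
    calc S.card ≤ _ := Finset.card_le_card hsub
      _ ≤ ∑ c : κ → Fin n, (agree P (V c)).card := Finset.card_biUnion_le
      _ ≤ ∑ _c : κ → Fin n, (n - 2 * Fintype.card κ).factorial := by
          refine Finset.sum_le_sum (fun c _ => ?_)
          have := card_agree_le hP (V c)
          rw [Fintype.card_prod, Fintype.card_bool, mul_comm] at this
          exact this
      _ = _ := by
          rw [Finset.sum_const, Finset.card_univ, Fintype.card_fun, Fintype.card_fin, smul_eq_mul]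

end Pool.Agent.W6.PS
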