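import Pool.Agent.W6.PS.Comb

namespace Pool.Agent.W6.PS

open Equiv

namespace Cfg

variable {n : ℕ} {π : Perm (Fin n)} (K : Cfg π)

theorem card_sub : (Finset.univ : Finset {i : Fin n // i ≠ K.a ∧ i ≠ K.b}).card + 2 = n := by
  classical
  have h1 : (Finset.univ : Finset {i : Fin n // i ≠ K.a ∧ i ≠ K.b}).card =
      ((Finset.univ.erase K.a).erase K.b).card := by
    rw [Finset.card_univ, Fintype.card_subtype]
    congr 1
    ext i
    simp [and_comm]
  have hab : K.b ≠ K.a := by
    intro h
    have := K.hab
    rw [h] at this
    omega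
  have h2 := K.b.isLt
  have h3 := K.hab
  rw [h1, Finset.card_erase_of_mem (by simp [hab]), Finset.card_erase_of_mem (by simp),
    Finset.card_univ, Fintype.card_fin]
  omega

theorem avoid {f : Fin n → K.I} (h : Occ π K.X K.Y f) : False := by
  classical
  have inj := occ_inj h
  obtain ⟨hX, hY⟩ := h
  set T : Finset (Fin n) := Finset.univ.filter (fun i => n ≤ K.Y (f i)) with hT
  have memT : ∀ i, i ∈ T ↔ n ≤ K.Y (f i) := by intro i; simp [hT]
  have T_inr : ∀ i, i ∈ T → ∃ j, f i = Sum.inr j := by
    intro i hi
    rw [memT] at hi
    rcases hfi : f i with g | j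
    · rw [hfi] at hi
      have := K.Y_inl_lt g
      omega
    · exact ⟨j, rfl⟩
  have nT_inl : ∀ i, i ∉ T → ∃ j, f i = Sum.inl j := by
    intro i hi
    rw [memT] at hi
    rcases hfi : f i with g | j
    · exact ⟨g, rfl⟩
    · rw [hfi] at hi
      exact absurd (K.le_Y_inr j) hi
  have up : ∀ i j, i ∈ T → π i < π j → j ∈ T := by
    intro i j hi hij
    rw [memT] at hi ⊢
    have := hY i j hij
    omega
  have Xmono : ∀ i j, i ≤ j → K.X (f i) ≤ K.X (f j) := by
    intro i j hij
    rcases eq_or_lt_of_le hij with rfl | h
    · exact le_rfl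
    · exact (hX i j h).le
  have XT : ∀ i, i ∈ T → n ≤ K.X (f i) ∧ K.X (f i) < 2 * n := by
    intro i hi
    obtain ⟨j, hj⟩ := T_inr i hi
    rw [hj, K.X_inr]
    have := j.1.isLt
    omega
  have Wq : ∀ i, i ∉ T → n ≤ K.X (f i) → K.X (f i) < 2 * n →
      f i = Sum.inl K.q ∨ f i = Sum.inl K.q' := by
    intro i hi h1 h2
    obtain ⟨g, hg⟩ := nT_inl i hi
    rw [hg] at h1 h2 ⊢
    rcases K.tri g with hh | hh | hh | hh
    · rw [K.X_lt hh] at h1
      have := g.isLt
      omega
    · left; rw [hh]
    · right; rw [hh]
    · rw [K.X_gt hh] at h2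
      omega
  have ht := K.ht
  have hu := K.hu
  have htu := K.htu
  have htq := K.htq
  have πut : π K.u < π K.t := by
    rw [Fin.lt_def]; omega
  by_cases huT : K.u ∈ T
  · have htT : K.t ∈ T := up _ _ huT πut
    -- lower bound on |T|
    have hW : (Finset.Icc K.t K.u) ⊆
        T ∪ (Finset.univ.filter (fun i => f i = Sum.inl K.q)) ∪
          (Finset.univ.filter (fun i => f i = Sum.inl K.q')) := by
      intro i hi
      rw [Finset.mem_Icc] at hi
      have h1 := Xmono _ _ hi.1
      have h2 := Xmono _ _ hi.2
      have h3 := XT _ htT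
      have h4 := XT _ huT
      by_cases hiT : i ∈ T
      · simp [hiT]
      · rcases Wq i hiT (by omega) (by omega) with h5 | h5
        · simp [h5]
        · simp [h5]
    have c1 : ∀ x : K.I, (Finset.univ.filter (fun i => f i = x)).card ≤ 1 := by
      intro x
      rw [Finset.card_le_one]
      intro i hi j hj
      simp only [Finset.mem_filter, Finset.mem_univ, true_and] at hi hj
      exact inj (hi.trans hj.symm)
    have hcard : K.u.val + 1 - K.t.val ≤ T.card + 2 := by
      have h1 := Finset.card_le_card hW
      rw [Fin.card_Icc] at h1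
      have h2 := Finset.card_union_le (T ∪ (Finset.univ.filter (fun i => f i = Sum.inl K.q)))
          (Finset.univ.filter (fun i => f i = Sum.inl K.q'))
      have h3 := Finset.card_union_le T (Finset.univ.filter (fun i => f i = Sum.inl K.q))
      have h4 := c1 (Sum.inl K.q)
      have h5 := c1 (Sum.inl K.q')
      omega
    have big : ∀ z : Fin n, n + 1 + K.t.val ≤ K.u.val + (π z).val → z ∈ T := by
      intro z hz
      by_contra hzT
      have hsub : T.map π.toEmbedding ⊆ Finset.Ioi (π z) := by
        intro v hv
        rw [Finset.mem_map] at hv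
        obtain ⟨i, hi, rfl⟩ := hv
        rw [Finset.mem_Ioi]
        rcases lt_trichotomy (π i) (π z) with h | h | h
        · exact absurd (up i z hi h) hzT
        · exact absurd (π.injective h ▸ hi) hzT
        · exact h
      have h1 := Finset.card_le_card hsub
      rw [Finset.card_map, Fin.card_Ioi] at h1
      omega
    have hn : 0 < n := by have := K.u.isLt; omega
    have hz0 : (⟨0, hn⟩ : Fin n) ∈ T := big _ (K.h0 _ rfl)
    have hz1 : (⟨n - 1, by omega⟩ : Fin n) ∈ T := big _ (K.h1 _ (by simp; omega))
    have all : ∀ i, n ≤ K.X (f i) ∧ K.X (f i) < 2 * n := by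
      intro i
      have h1 := Xmono ⟨0, hn⟩ i (by rw [Fin.le_def]; simp)
      have h2 := Xmono i ⟨n - 1, by omega⟩ (by rw [Fin.le_def]; simp; have := i.isLt; omega)
      have h3 := XT _ hz0
      have h4 := XT _ hz1
      omega
    have hTcard : T.card + 2 ≤ n := by
      have h1 : T.card = (T.image f).card := (Finset.card_image_of_injective T inj).symm
      have h2 : T.image f ⊆ (Finset.univ : Finset {i : Fin n // i ≠ K.a ∧ i ≠ K.b}).image
          Sum.inr := by
        intro x hx
        rw [Finset.mem_image] at hx
        obtain ⟨i, hi, rfl⟩ := hx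
        obtain ⟨j, hj⟩ := T_inr i hi
        rw [hj]
        simp
      have h3 := Finset.card_le_card h2
      have h4 := Finset.card_image_le (s := (Finset.univ : Finset {i : Fin n // i ≠ K.a ∧ i ≠ K.b}))
        (f := (Sum.inr : _ → K.I))
      have h5 := K.card_sub
      omega
    have ha := K.ha
    have hb := K.hb
    have hbT : K.b ∉ T := by
      intro hbT
      have h1 : Finset.univ.erase K.a ⊆ T := by
        intro i hi
        have hia : i ≠ K.a := by simpa using hi
        by_cases hib : i = K.b
        · rw [hib]; exact hbT
        · refine up _ _ hbT ?_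
          rw [Fin.lt_def]
          have h2 : (π i).val ≠ 0 := by
            intro h3
            exact hia (π.injective (Fin.ext (by omega)))
          have h3 : (π i).val ≠ 1 := by
            intro h3
            exact hib (π.injective (Fin.ext (by omega)))
          omega
      have h2 := Finset.card_le_card h1
      rw [Finset.card_erase_of_mem (by simp), Finset.card_univ, Fintype.card_fin] at h2
      omega
    have haT : K.a ∉ T := by
      intro haT
      exact hbT (up _ _ haT (by rw [Fin.lt_def]; omega))
    have πab : π K.a < π K.b := by rw [Fin.lt_def]; omega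
    have hab : K.a < K.b := by rw [Fin.lt_def]; exact K.hab
    have hYab := hY _ _ πab
    have hXab := hX _ _ hab
    have hπq := K.hπq
    have hvab := K.hab
    rcases Wq _ haT (all _).1 (all _).2 with h1 | h1 <;>
      rcases Wq _ hbT (all _).1 (all _).2 with h2 | h2
    · rw [h1, h2] at hYab; omega
    · rw [h1, h2, K.Y_q, K.Y_q'] at hYab; omega
    · rw [h1, h2, K.X_q, K.X_q'] at hXab; omega
    · rw [h1, h2] at hYab; omega
  · have hTt : ∀ i, i ∈ T → i = K.t := by
      intro i hi
      rcases lt_trichotomy (π i) (π K.u) with h | h | h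
      · exact absurd (up i _ hi h) huT
      · exact absurd (π.injective h ▸ hi) huT
      · apply π.injective
        rw [Fin.lt_def] at h
        apply Fin.ext
        have := (π i).isLt
        omega
    by_cases htT : K.t ∈ T
    · have h1 : (Finset.Ioi K.t).image f ⊆ (Finset.Ici K.q).image Sum.inl := by
        intro x hx
        rw [Finset.mem_image] at hx
        obtain ⟨i, hi, rfl⟩ := hx
        rw [Finset.mem_Ioi] at hi
        have hiT : i ∉ T := by
          intro hiT
          rw [hTt i hiT] at hi
          exact lt_irrefl _ hi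
        obtain ⟨g, hg⟩ := nT_inl i hiT
        rw [hg, Finset.mem_image]
        refine ⟨g, ?_, rfl⟩
        rw [Finset.mem_Ici, Fin.le_def]
        by_contra hlt
        push Not at hlt
        have h2 := hX _ _ hi
        rw [hg, K.X_lt hlt] at h2
        have h3 := XT _ htT
        have := g.isLt
        omega
      have h2 := Finset.card_le_card h1
      rw [Finset.card_image_of_injective _ inj] at h2
      have h3 := Finset.card_image_le (s := Finset.Ici K.q) (f := (Sum.inl : _ → K.I))
      rw [Fin.card_Ioi] at h2
      rw [Fin.card_Ici] at h3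
      have := K.q.isLt
      omega
    · have hno : ∀ i, i ∉ T := by
        intro i hi
        rw [hTt i hi] at hi
        exact htT hi
      choose g hg using fun i => nT_inl i (hno i)
      have gmono : StrictMono g := by
        intro i j hij
        have h1 := hX i j hij
        rw [hg, hg] at h1
        by_contra hle
        push Not at hle
        rcases eq_or_lt_of_le hle with h2 | h2
        · rw [h2] at h1; exact lt_irrefl _ h1
        · have := K.X_inl_mono (Fin.lt_def.1 h2)
          omega
      have gid : ∀ i, g i = i := by
        intro i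
        exact le_antisymm (gmono.apply_le (x := i)) (gmono.le_apply (x := i))
      have hπq := K.hπq
      have h1 := hY K.q K.q' (by rw [Fin.lt_def]; omega)
      rw [hg, hg, gid, gid, K.Y_q, K.Y_q'] at h1
      omega

end Cfg

end Pool.Agent.W6.PS
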