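import Pool.Agent.W6.PS.Defs

namespace Pool.Agent.W6.PS

open Equiv

/-- occurrence of `π` in a configuration with coordinates `X`, `Y`. -/
def Occ {n : ℕ} (π : Perm (Fin n)) {ι A B : Type*} [LT A] [LT B] (X : ι → A)
    (Y : ι → B) (f : Fin n → ι) : Prop :=
  (∀ i j, i < j → X (f i) < X (f j)) ∧ (∀ i j, π i < π j → Y (f i) < Y (f j))

theorem occ_inj {n : ℕ} {π : Perm (Fin n)} {ι A B : Type*} [Preorder A] [Preorder B] {X : ι → A}
    {Y : ι → B} {f : Fin n → ι} (h : Occ π X Y f) : Function.Injective f := by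
  intro i j hij
  rcases lt_trichotomy i j with hl | hl | hl
  · have := h.1 i j hl
    rw [hij] at this
    exact absurd this (lt_irrefl _)
  · exact hl
  · have := h.1 j i hl
    rw [hij] at this
    exact absurd this (lt_irrefl _)

/-- standardization -/
theorem standardize {ι A B : Type*} [Fintype ι] [LinearOrder A] [LinearOrder B] (X : ι → A)
    (Y : ι → B) (hX : Function.Injective X) (hY : Function.Injective Y) :
    ∃ (τ : Perm (Fin (Fintype.card ι))) (e : Fin (Fintype.card ι) ≃ ι),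
      (∀ i j, i < j ↔ X (e i) < X (e j)) ∧ (∀ i j, τ i < τ j ↔ Y (e i) < Y (e j)) := by
  classical
  obtain ⟨eX, heX⟩ : ∃ e : Fin (Fintype.card ι) ≃ ι, ∀ i j, i < j ↔ X (e i) < X (e j) := by
    letI : LinearOrder ι := LinearOrder.lift' X hX
    refine ⟨(Fintype.orderIsoFinOfCardEq ι rfl).toEquiv, fun i j => ?_⟩
    exact ((Fintype.orderIsoFinOfCardEq ι rfl).lt_iff_lt (x := i) (y := j)).symm
  obtain ⟨eY, heY⟩ : ∃ e : Fin (Fintype.card ι) ≃ ι, ∀ i j, i < j ↔ Y (e i) < Y (e j) := by
    letI : LinearOrder ι := LinearOrder.lift' Y hY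
    refine ⟨(Fintype.orderIsoFinOfCardEq ι rfl).toEquiv, fun i j => ?_⟩
    exact ((Fintype.orderIsoFinOfCardEq ι rfl).lt_iff_lt (x := i) (y := j)).symm
  refine ⟨eX.trans eY.symm, eX, heX, fun i j => ?_⟩
  rw [heY]
  simp

/-- the data of a configuration: an increasing adjacency `q, q'`, positions `a, b` of the two
smallest values, positions `t, u` of the two largest values, and conditions. -/
structure Cfg {n : ℕ} (π : Perm (Fin n)) where
  q : Fin n
  q' : Fin n
  a : Fin n
  b : Fin n
  t : Fin n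
  u : Fin n
  hq : q'.val = q.val + 1
  hπq : (π q').val = (π q).val + 1
  ha : (π a).val = 0
  hb : (π b).val = 1
  ht : (π t).val + 1 = n
  hu : (π u).val + 2 = n
  hab : a.val < b.val
  ha1 : 1 ≤ a.val
  htu : t.val < u.val
  htq : t.val + 1 < q.val
  h0 : ∀ z : Fin n, z.val = 0 → n + 1 + t.val ≤ u.val + (π z).val
  h1 : ∀ z : Fin n, z.val + 1 = n → n + 1 + t.val ≤ u.val + (π z).val

namespace Cfg

variable {n : ℕ} {π : Perm (Fin n)} (K : Cfg π)

/-- index type of the configuration -/
abbrev I : Type := Fin n ⊕ {i : Fin n // i ≠ K.a ∧ i ≠ K.b}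

/-- horizontal coordinate -/
def X : K.I → ℕ
  | Sum.inl i => if i = K.q then n + K.a.val else if i = K.q' then n + K.b.val else
      if i.val < K.q.val then i.val else 2 * n + i.val
  | Sum.inr j => n + j.1.val

/-- vertical coordinate -/
def Y : K.I → ℕ
  | Sum.inl i => if i = K.q then (π K.q').val else if i = K.q' then (π K.q).val else (π i).val
  | Sum.inr j => n + (π j.1).val

theorem q_ne : K.q ≠ K.q' := by
  intro h
  have := K.hq
  rw [← h] at this
  omega

theorem X_q : K.X (Sum.inl K.q) = n + K.a.val := by simp [X]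

theorem X_q' : K.X (Sum.inl K.q') = n + K.b.val := by
  simp [X, K.q_ne.symm]

theorem X_lt {i : Fin n} (h : i.val < K.q.val) : K.X (Sum.inl i) = i.val := by
  have h1 : i ≠ K.q := by rintro rfl; omega
  have h2 : i ≠ K.q' := by rintro rfl; have := K.hq; omega
  simp [X, h1, h2, h]

theorem X_gt {i : Fin n} (h : K.q'.val < i.val) : K.X (Sum.inl i) = 2 * n + i.val := by
  have hq := K.hq
  have h1 : i ≠ K.q := by rintro rfl; omega
  have h2 : i ≠ K.q' := by rintro rfl; omega
  have h3 : ¬ i.val < K.q.val := by omega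
  simp [X, h1, h2, h3]

theorem X_inr (j : {i : Fin n // i ≠ K.a ∧ i ≠ K.b}) : K.X (Sum.inr j) = n + j.1.val := rfl

theorem Y_q : K.Y (Sum.inl K.q) = (π K.q').val := by simp [Y]

theorem Y_q' : K.Y (Sum.inl K.q') = (π K.q).val := by simp [Y, K.q_ne.symm]

theorem Y_inl {i : Fin n} (h1 : i ≠ K.q) (h2 : i ≠ K.q') : K.Y (Sum.inl i) = (π i).val := by
  simp [Y, h1, h2]

theorem Y_inr (j : {i : Fin n // i ≠ K.a ∧ i ≠ K.b}) : K.Y (Sum.inr j) = n + (π j.1).val := rfl

/-- trichotomy of indices -/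
theorem tri (i : Fin n) : i.val < K.q.val ∨ i = K.q ∨ i = K.q' ∨ K.q'.val < i.val := by
  have hq := K.hq
  rcases lt_trichotomy i.val K.q.val with h | h | h
  · exact Or.inl h
  · exact Or.inr (Or.inl (Fin.ext h))
  · rcases lt_trichotomy i.val K.q'.val with h' | h' | h'
    · omega
    · exact Or.inr (Or.inr (Or.inl (Fin.ext h')))
    · exact Or.inr (Or.inr (Or.inr h'))

theorem X_inl_mono {i j : Fin n} (h : i.val < j.val) :
    K.X (Sum.inl i) < K.X (Sum.inl j) := by
  have hq := K.hq
  have hab := K.hab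
  have := i.isLt
  have := j.isLt
  have := K.a.isLt
  have := K.b.isLt
  rcases K.tri i with hi | rfl | rfl | hi <;> rcases K.tri j with hj | rfl | rfl | hj
  all_goals first
    | omega
    | (simp only [K.X_q, K.X_q'] ; omega)
    | (rw [K.X_lt hi, K.X_lt hj]; omega)
    | (rw [K.X_lt hi, K.X_q]; omega)
    | (rw [K.X_lt hi, K.X_q']; omega)
    | (rw [K.X_lt hi, K.X_gt hj]; omega)
    | (rw [K.X_q, K.X_gt hj]; omega)
    | (rw [K.X_q', K.X_gt hj]; omega)
    | (rw [K.X_gt hi, K.X_gt hj]; omega)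

theorem Y_inl_lt (i : Fin n) : K.Y (Sum.inl i) < n := by
  unfold Y
  dsimp only
  split_ifs
  · exact (π K.q').isLt
  · exact (π K.q).isLt
  · exact (π i).isLt

theorem le_Y_inr (j : {i : Fin n // i ≠ K.a ∧ i ≠ K.b}) : n ≤ K.Y (Sum.inr j) := by
  rw [K.Y_inr]; omega

theorem X_injective : Function.Injective K.X := by
  have hq := K.hq
  have hab := K.hab
  have key : ∀ (i : Fin n) (j : {i : Fin n // i ≠ K.a ∧ i ≠ K.b}),
      K.X (Sum.inl i) ≠ K.X (Sum.inr j) := by
    intro i j h
    rw [K.X_inr] at h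
    have := j.1.isLt
    have := i.isLt
    rcases K.tri i with hi | rfl | rfl | hi
    · rw [K.X_lt hi] at h; omega
    · rw [K.X_q] at h
      exact j.2.1 (Fin.ext (by omega))
    · rw [K.X_q'] at h
      exact j.2.2 (Fin.ext (by omega))
    · rw [K.X_gt hi] at h; omega
  intro x y hxy
  rcases x with i | i <;> rcases y with j | j
  · rcases lt_trichotomy i.val j.val with h | h | h
    · exact absurd hxy (K.X_inl_mono h).ne
    · rw [Fin.ext h]
    · exact absurd hxy.symm (K.X_inl_mono h).ne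
  · exact absurd hxy (key i j)
  · exact absurd hxy.symm (key j i)
  · rw [K.X_inr, K.X_inr] at hxy
    congr 1
    exact Subtype.ext (Fin.ext (by omega))

theorem Y_eq_swap (i : Fin n) : K.Y (Sum.inl i) = (π (swap K.q K.q' i)).val := by
  by_cases h1 : i = K.q
  · subst h1; rw [K.Y_q, swap_apply_left]
  · by_cases h2 : i = K.q'
    · subst h2; rw [K.Y_q', swap_apply_right]
    · rw [K.Y_inl h1 h2, swap_apply_of_ne_of_ne h1 h2]

theorem Y_injective : Function.Injective K.Y := by
  intro x y hxy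
  rcases x with i | i <;> rcases y with j | j
  · rw [K.Y_eq_swap, K.Y_eq_swap] at hxy
    have := (swap K.q K.q').injective (π.injective (Fin.ext hxy))
    rw [this]
  · have := K.Y_inl_lt i
    have := K.le_Y_inr j
    omega
  · have := K.Y_inl_lt j
    have := K.le_Y_inr i
    omega
  · rw [K.Y_inr, K.Y_inr] at hxy
    congr 1
    exact Subtype.ext (π.injective (Fin.ext (by omega)))

end Cfg

end Pool.Agent.W6.PS
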