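import Pool.Agent.W6.PS.Avoid

namespace Pool.Agent.W6.PS

open Equiv

namespace Cfg

variable {n : ℕ} {π : Perm (Fin n)} (K : Cfg π)

/-- the marked point -/
def x : K.I := Sum.inl K.q

/-- the position just before `a` -/
def a' : Fin n := ⟨K.a.val - 1, by have := K.a.isLt; omega⟩

theorem a'_ne : K.a' ≠ K.a ∧ K.a' ≠ K.b := by
  have h1 := K.ha1
  have h2 := K.hab
  constructor
  · intro h
    have := congrArg Fin.val h
    simp only [a'] at this
    omega
  · intro h
    have := congrArg Fin.val h
    simp only [a'] at this
    omega

/-- the left neighbour of the marked point -/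
def l : K.I := Sum.inr ⟨K.a', K.a'_ne⟩

theorem X_l : K.X K.l + 1 = n + K.a.val := by
  have := K.ha1
  unfold l
  rw [K.X_inr]
  simp only [a']
  omega

theorem X_l_lt : K.X K.l < K.X K.x := by
  have := K.X_l
  unfold x
  rw [K.X_q]
  omega

theorem Y_x_lt_l : K.Y K.x < K.Y K.l := by
  unfold x l
  have := K.Y_inl_lt K.q
  have := K.le_Y_inr ⟨K.a', K.a'_ne⟩
  omega

/-- a point to the left of `x`, to the right of `l` and below `x` creates `π`. -/
theorem prohibit {ι A B : Type*} [LinearOrder A] [LinearOrder B] (X' : ι → A) (Y' : ι → B)
    (g : K.I → ι) (gX : ∀ i j, K.X i < K.X j → X' (g i) < X' (g j))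
    (gY : ∀ i j, K.Y i < K.Y j → Y' (g i) < Y' (g j)) (hY' : Function.Injective Y') (y : ι)
    (h1 : X' (g K.l) < X' y) (h2 : X' y < X' (g K.x)) (h3 : Y' y < Y' (g K.x)) :
    ∃ f, Occ π X' Y' f := by
  have hqq := K.q_ne
  have hq := K.hq
  have hπq := K.hπq
  have ha := K.ha
  have hb := K.hb
  have hab := K.hab
  have ha1 := K.ha1
  have hXl := K.X_l
  have gX' : ∀ i j, K.X i ≤ K.X j → X' (g i) ≤ X' (g j) := by
    intro i j hij
    rcases eq_or_lt_of_le hij with h | h
    · rw [K.X_injective h]
    · exact (gX _ _ h).le
  have hxd : X' (g K.x) < X' (g (Sum.inl K.q')) := by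
    apply gX
    unfold x
    rw [K.X_q, K.X_q']; omega
  rcases lt_trichotomy (Y' y) (Y' (g (Sum.inl K.q'))) with hy | hy | hy
  · -- `y` is the lowest point
    refine ⟨fun i => if h : i = K.a then y else if h' : i = K.b then g (Sum.inl K.q') else
      g (Sum.inr ⟨i, h, h'⟩), ?_, ?_⟩
    · intro i j hij
      rw [Fin.lt_def] at hij
      by_cases hia : i = K.a
      · subst hia
        have hja : j ≠ K.a := by rintro rfl; omega
        by_cases hjb : j = K.b
        · subst hjb
          simp only [dif_pos, dif_neg hja]
          exact h2.trans hxd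
        · simp only [dif_pos, dif_neg hja, dif_neg hjb]
          refine h2.trans (gX _ _ ?_)
          unfold x
          rw [K.X_q, K.X_inr]
          simp only
          omega
      · by_cases hib : i = K.b
        · subst hib
          have hja : j ≠ K.a := by rintro rfl; omega
          have hjb : j ≠ K.b := by rintro rfl; omega
          simp only [dif_neg hia, dif_pos, dif_neg hja, dif_neg hjb]
          apply gX
          rw [K.X_q', K.X_inr]
          simp only
          omega
        · by_cases hja : j = K.a
          · subst hja
            simp only [dif_neg hia, dif_neg hib, dif_pos]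
            refine lt_of_le_of_lt (gX' _ _ ?_) h1
            rw [K.X_inr]
            simp only
            omega
          · by_cases hjb : j = K.b
            · subst hjb
              simp only [dif_neg hia, dif_neg hib, dif_neg hja, dif_pos]
              apply gX
              rw [K.X_q', K.X_inr]
              simp only
              omega
            · simp only [dif_neg hia, dif_neg hib, dif_neg hja, dif_neg hjb]
              apply gX
              rw [K.X_inr, K.X_inr]
              simp only
              omega
    · intro i j hij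
      rw [Fin.lt_def] at hij
      by_cases hia : i = K.a
      · subst hia
        have hja : j ≠ K.a := by rintro rfl; omega
        by_cases hjb : j = K.b
        · subst hjb
          simp only [dif_pos, dif_neg hja]
          exact hy
        · simp only [dif_pos, dif_neg hja, dif_neg hjb]
          refine hy.trans (gY _ _ ?_)
          have := K.Y_inl_lt K.q'
          have := K.le_Y_inr ⟨j, hja, hjb⟩
          omega
      · by_cases hib : i = K.b
        · subst hib
          have hja : j ≠ K.a := by rintro rfl; omega
          have hjb : j ≠ K.b := by rintro rfl; omega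
          simp only [dif_neg hia, dif_pos, dif_neg hja, dif_neg hjb]
          apply gY
          have := K.Y_inl_lt K.q'
          have := K.le_Y_inr ⟨j, hja, hjb⟩
          omega
        · have hi0 : (π i).val ≠ 0 := by
            intro h
            exact hia (π.injective (Fin.ext (by omega)))
          have hi1 : (π i).val ≠ 1 := by
            intro h
            exact hib (π.injective (Fin.ext (by omega)))
          have hja : j ≠ K.a := by rintro rfl; omega
          have hjb : j ≠ K.b := by rintro rfl; omega
          simp only [dif_neg hia, dif_neg hib, dif_neg hja, dif_neg hjb]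
          apply gY
          rw [K.Y_inr, K.Y_inr]
          simp only
          omega
  · -- equality is impossible
    exfalso
    have h4 := hY' hy
    rw [h4] at h2
    exact lt_asymm h2 hxd
  · -- `y` and `x` form the adjacency
    have hxn : K.X K.x = n + K.a.val := by unfold x; rw [K.X_q]
    have hxY : K.Y K.x = (π K.q').val := by unfold x; rw [K.Y_q]
    have hlX : n ≤ K.X K.l := by omega
    refine ⟨fun i => if i = K.q then y else if i = K.q' then g K.x else g (Sum.inl i), ?_, ?_⟩
    · intro i j hij
      rw [Fin.lt_def] at hij
      have ne_q : ∀ k : Fin n, k.val < K.q.val ∨ K.q'.val < k.val → k ≠ K.q ∧ k ≠ K.q' := by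
        intro k hk
        constructor
        · rintro rfl; omega
        · rintro rfl; omega
      rcases K.tri i with hi | hi | hi | hi
      · have hi' := ne_q i (Or.inl hi)
        have hXi : X' (g (Sum.inl i)) < X' (g K.l) := by
          apply gX
          rw [K.X_lt hi]
          have := i.isLt
          omega
        by_cases hjq : j = K.q
        · subst hjq
          simp only [if_neg hi'.1, if_neg hi'.2, if_pos]
          exact hXi.trans h1
        · by_cases hjq' : j = K.q'
          · subst hjq'
            simp only [if_neg hi'.1, if_neg hi'.2, if_pos, if_neg hjq]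
            exact (hXi.trans h1).trans h2
          · simp only [if_neg hi'.1, if_neg hi'.2, if_neg hjq, if_neg hjq']
            exact gX _ _ (K.X_inl_mono hij)
      · subst hi
        have hjq : j ≠ K.q := by rintro rfl; omega
        by_cases hjq' : j = K.q'
        · subst hjq'
          simp only [if_pos, if_neg hjq]
          exact h2
        · simp only [if_pos, if_neg hjq, if_neg hjq']
          exact h2.trans (gX _ _ (K.X_inl_mono hij))
      · subst hi
        have hjq : j ≠ K.q := by rintro rfl; omega
        have hjq' : j ≠ K.q' := by rintro rfl; omega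
        simp only [if_pos, if_neg hqq.symm, if_neg hjq, if_neg hjq']
        exact gX _ _ (K.X_inl_mono (by omega))
      · have hi' := ne_q i (Or.inr hi)
        have hj' := ne_q j (Or.inr (by omega))
        simp only [if_neg hi'.1, if_neg hi'.2, if_neg hj'.1, if_neg hj'.2]
        exact gX _ _ (K.X_inl_mono hij)
    · intro i j hij
      rw [Fin.lt_def] at hij
      have ne_val : ∀ k : Fin n, k ≠ K.q → k ≠ K.q' →
          (π k).val ≠ (π K.q).val ∧ (π k).val ≠ (π K.q').val := by
        intro k hk hk'
        constructor
        · intro h; exact hk (π.injective (Fin.ext h))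
        · intro h; exact hk' (π.injective (Fin.ext h))
      by_cases hiq : i = K.q
      · subst hiq
        have hjq : j ≠ K.q := by rintro rfl; omega
        by_cases hjq' : j = K.q'
        · subst hjq'
          simp only [if_pos, if_neg hjq]
          exact h3
        · simp only [if_pos, if_neg hjq, if_neg hjq']
          refine h3.trans (gY _ _ ?_)
          rw [hxY, K.Y_inl hjq hjq']
          have := ne_val j hjq hjq'
          omega
      · by_cases hiq' : i = K.q'
        · subst hiq'
          have hjq : j ≠ K.q := by rintro rfl; omega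
          have hjq' : j ≠ K.q' := by rintro rfl; omega
          simp only [if_pos, if_neg hiq, if_neg hjq, if_neg hjq']
          apply gY
          rw [hxY, K.Y_inl hjq hjq']
          omega
        · have hi' := ne_val i hiq hiq'
          by_cases hjq : j = K.q
          · subst hjq
            simp only [if_pos, if_neg hiq, if_neg hiq']
            refine lt_trans (gY (Sum.inl i) (Sum.inl K.q') ?_) hy
            rw [K.Y_inl hiq hiq', K.Y_q']
            omega
          · by_cases hjq' : j = K.q'
            · subst hjq'
              simp only [if_pos, if_neg hiq, if_neg hiq', if_neg hjq]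
              apply gY
              rw [K.Y_inl hiq hiq', hxY]
              omega
            · simp only [if_neg hiq, if_neg hiq', if_neg hjq, if_neg hjq']
              apply gY
              rw [K.Y_inl hiq hiq', K.Y_inl hjq hjq']
              exact hij

end Cfg

/-- the complement of a permutation -/
def compl {n : ℕ} (π : Perm (Fin n)) : Perm (Fin n) := π.trans Fin.revPerm

theorem compl_lt {n : ℕ} (π : Perm (Fin n)) (i j : Fin n) : compl π i < compl π j ↔ π j < π i := by
  simp [compl]

theorem compl_val {n : ℕ} (π : Perm (Fin n)) (i : Fin n) :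
    (compl π i).val + (π i).val + 1 = n := by
  have := (π i).isLt
  simp only [compl, Equiv.trans_apply, Fin.revPerm_apply, Fin.val_rev]
  omega

/-- the splitting theorem -/
theorem not_unsplittable {n : ℕ} (π : Perm (Fin n)) (K : Cfg π) (K' : Cfg (compl π)) :
    ¬ Unsplittable (Av π) := by
  classical
  intro hU
  obtain ⟨σ2, e2, he2X, he2Y⟩ := standardize K.X K.Y K.X_injective K.Y_injective
  obtain ⟨σ1, e1, he1X, he1Y⟩ := standardize K'.X (fun i => OrderDual.toDual (K'.Y i))
    K'.X_injective (fun i j h => K'.Y_injective h)
  have hσ2 : (⟨_, σ2⟩ : Σ m : ℕ, Perm (Fin m)) ∈ Av π := by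
    rintro ⟨f, hf1, hf2⟩
    refine K.avoid (f := fun i => e2 (f i)) ⟨fun i j hij => ?_, fun i j hij => ?_⟩
    · exact (he2X _ _).1 (hf1 i j hij)
    · exact (he2Y _ _).1 ((hf2 i j).1 hij)
  have hσ1 : (⟨_, σ1⟩ : Σ m : ℕ, Perm (Fin m)) ∈ Av π := by
    rintro ⟨f, hf1, hf2⟩
    refine K'.avoid (f := fun i => e1 (f i)) ⟨fun i j hij => ?_, fun i j hij => ?_⟩
    · exact (he1X _ _).1 (hf1 i j hij)
    · rw [compl_lt] at hij
      have := (he1Y _ _).1 ((hf2 j i).1 hij)
      exact OrderDual.toDual_lt_toDual.1 this
  obtain ⟨⟨m, τ⟩, hτ, hc⟩ := hU _ hσ1 _ hσ2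
  have hτ' : ∀ f : Fin n → Fin m, (∀ i j, i < j → f i < f j) → (∀ i j, π i < π j →
      τ (f i) < τ (f j)) → False := by
    intro f h1 h2
    apply hτ
    refine ⟨f, h1, fun i j => ⟨h2 i j, fun h => ?_⟩⟩
    rcases lt_trichotomy (π i) (π j) with h3 | h3 | h3
    · exact h3
    · rw [π.injective h3] at h
      exact absurd h (lt_irrefl _)
    · exact absurd (h2 j i h3) (not_lt.2 h.le)
  -- the marked positions
  set c : Fin m → Bool := fun y => !decide (∃ f, IsCopy σ1 τ f ∧ f (e1.symm K'.x) = y) with hcdef
  rcases hc c with ⟨f, hf, hfc⟩ | ⟨f, hf, hfc⟩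
  · have h1 := hfc (e1.symm K'.x)
    rw [hcdef] at h1
    simp only [Bool.not_eq_true', decide_eq_false_iff_not] at h1
    exact h1 ⟨f, hf, rfl⟩
  · have h1 := hfc (e2.symm K.x)
    rw [hcdef] at h1
    simp only [Bool.not_eq_false', decide_eq_true_eq] at h1
    obtain ⟨f1, hf1, hf1x⟩ := h1
    -- the two embeddings
    set g2 : K.I → Fin m := fun i => f (e2.symm i) with hg2
    set g1 : K'.I → Fin m := fun i => f1 (e1.symm i) with hg1
    have g2X : ∀ i j, K.X i < K.X j → g2 i < g2 j := by
      intro i j hij
      apply hf.1
      rw [he2X]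
      simpa using hij
    have g2Y : ∀ i j, K.Y i < K.Y j → τ (g2 i) < τ (g2 j) := by
      intro i j hij
      apply (hf.2 _ _).1
      rw [he2Y]
      simpa using hij
    have g1X : ∀ i j, K'.X i < K'.X j → g1 i < g1 j := by
      intro i j hij
      apply hf1.1
      rw [he1X]
      simpa using hij
    have g1Y : ∀ i j, K'.Y i < K'.Y j → τ (g1 j) < τ (g1 i) := by
      intro i j hij
      apply (hf1.2 _ _).1
      rw [he1Y]
      simpa using hij
    have hx : g1 K'.x = g2 K.x := hf1x
    have hl2 : g2 K.l < g2 K.x := g2X _ _ K.X_l_lt
    have hl1 : g1 K'.l < g1 K'.x := g1X _ _ K'.X_l_lt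
    have hl2' : τ (g2 K.x) < τ (g2 K.l) := g2Y _ _ K.Y_x_lt_l
    have hl1' : τ (g1 K'.l) < τ (g1 K'.x) := g1Y _ _ K'.Y_x_lt_l
    rcases lt_trichotomy (g2 K.l) (g1 K'.l) with h | h | h
    · -- `g1 l` is to the right of `g2 l`, below `x`
      obtain ⟨f', hf'⟩ := K.prohibit (X' := (id : Fin m → Fin m)) (Y' := fun i => τ i) g2 g2X g2Y
        τ.injective (g1 K'.l) h (by rw [← hx]; exact hl1) (by rw [← hx]; exact hl1')
      exact hτ' f' hf'.1 hf'.2
    · rw [h, ← hx] at hl2'
      exact lt_asymm hl2' hl1'
    · obtain ⟨f', hf'⟩ := K'.prohibit (X' := (id : Fin m → Fin m))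
        (Y' := fun i => OrderDual.toDual (τ i)) g1 g1X
        (fun i j hij => OrderDual.toDual_lt_toDual.2 (g1Y i j hij))
        (fun i j hij => τ.injective hij) (g2 K.l) h (by rw [hx]; exact hl2)
        (OrderDual.toDual_lt_toDual.2 (by rw [hx]; exact hl2'))
      refine hτ' f' hf'.1 (fun i j hij => ?_)
      have := hf'.2 j i ((compl_lt π j i).2 hij)
      exact OrderDual.toDual_lt_toDual.1 this

end Pool.Agent.W6.PS
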