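import Pool.Agent.W6.PS.Agree
import Pool.Agent.W6.PS.Split

namespace Pool.Agent.W6.PS

open Equiv Finset

variable {n M : ℕ}

/-- the ten prescribed positions -/
def posN (n M : ℕ) (d : Fin 10 → Fin M) : Fin 10 → ℕ :=
  ![0, 1 + (d 2).val, M + 1 + (d 3).val, 10 * M + 2 * (d 0).val, 10 * M + 2 * (d 0).val + 1,
    20 * M + 2 * (d 1).val, 20 * M + 2 * (d 1).val + 1, n - 2 - M - (d 5).val,
    n - 2 - (d 4).val, n - 1]

/-- the ten prescribed values -/
def valN (n M : ℕ) (d : Fin 10 → Fin M) : Fin 10 → ℕ :=
  ![10 * M + (d 6).val, 0, n - 1, 20 * M + (d 8).val, 20 * M + (d 8).val + 1,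
    30 * M + (d 9).val + 1, 30 * M + (d 9).val, n - 2, 1, 12 * M + (d 7).val]

theorem M_pos (d : Fin 10 → Fin M) : 0 < M := by
  have := (d 0).isLt; omega

theorem posN_lt (h : 100 * M ≤ n) (d : Fin 10 → Fin M) (k : Fin 10) : posN n M d k < n := by
  have hM := M_pos d
  have h0 := (d 0).isLt
  have h1 := (d 1).isLt
  have h2 := (d 2).isLt
  have h3 := (d 3).isLt
  fin_cases k <;> simp [posN] <;> omega

theorem valN_lt (h : 100 * M ≤ n) (d : Fin 10 → Fin M) (k : Fin 10) : valN n M d k < n := by
  have hM := M_pos d
  have h6 := (d 6).isLt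
  have h7 := (d 7).isLt
  have h8 := (d 8).isLt
  have h9 := (d 9).isLt
  fin_cases k <;> simp [valN] <;> omega

theorem posN_mono (h : 100 * M ≤ n) (d : Fin 10 → Fin M) : StrictMono (posN n M d) := by
  have hM := M_pos d
  have h0 := (d 0).isLt
  have h1 := (d 1).isLt
  have h2 := (d 2).isLt
  have h3 := (d 3).isLt
  have h4 := (d 4).isLt
  have h5 := (d 5).isLt
  rw [Fin.strictMono_iff_lt_succ]
  intro k
  fin_cases k <;> simp [posN] <;> omega

theorem valN_inj (h : 100 * M ≤ n) (d : Fin 10 → Fin M) : Function.Injective (valN n M d) := by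
  have hM := M_pos d
  have h6 := (d 6).isLt
  have h7 := (d 7).isLt
  have h8 := (d 8).isLt
  have h9 := (d 9).isLt
  intro x y hxy
  fin_cases x <;> fin_cases y <;> first | rfl | (exfalso; simp [valN] at hxy; omega) |
    (exfalso; simp [valN] at hxy)

/-- the positions as elements of `Fin n` -/
def posF (h : 100 * M ≤ n) (d : Fin 10 → Fin M) (k : Fin 10) : Fin n := ⟨posN n M d k, posN_lt h d k⟩

/-- the values as elements of `Fin n` -/
def valF (h : 100 * M ≤ n) (d : Fin 10 → Fin M) (k : Fin 10) : Fin n := ⟨valN n M d k, valN_lt h d k⟩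

theorem posF_inj (h : 100 * M ≤ n) (d : Fin 10 → Fin M) : Function.Injective (posF h d) := by
  intro x y hxy
  exact (posN_mono h d).injective (congrArg Fin.val hxy)

theorem valF_inj (h : 100 * M ≤ n) (d : Fin 10 → Fin M) : Function.Injective (valF h d) := by
  intro x y hxy
  exact valN_inj h d (congrArg Fin.val hxy)

theorem card_E (h : 100 * M ≤ n) (d : Fin 10 → Fin M) :
    (agree (posF h d) (valF h d)).card = (n - 10).factorial := by
  rw [card_agree (posF_inj h d) (valF_inj h d), Fintype.card_fin]

/-- permutations in `E_d` have both configurations -/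
theorem good (h : 100 * M ≤ n) (d : Fin 10 → Fin M) {π : Perm (Fin n)}
    (hπ : π ∈ agree (posF h d) (valF h d)) : Nonempty (Cfg π) ∧ Nonempty (Cfg (compl π)) := by
  rw [mem_agree] at hπ
  have hM := M_pos d
  have h0 := (d 0).isLt
  have h1 := (d 1).isLt
  have h2 := (d 2).isLt
  have h3 := (d 3).isLt
  have h4 := (d 4).isLt
  have h5 := (d 5).isLt
  have h6 := (d 6).isLt
  have h7 := (d 7).isLt
  have h8 := (d 8).isLt
  have h9 := (d 9).isLt
  have e0 : (π (posF h d 0)).val = 10 * M + (d 6).val := by rw [hπ]; simp [valF, valN]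
  have e1 : (π (posF h d 1)).val = 0 := by rw [hπ]; simp [valF, valN]
  have e2 : (π (posF h d 2)).val = n - 1 := by rw [hπ]; simp [valF, valN]
  have e3 : (π (posF h d 3)).val = 20 * M + (d 8).val := by rw [hπ]; simp [valF, valN]
  have e4 : (π (posF h d 4)).val = 20 * M + (d 8).val + 1 := by rw [hπ]; simp [valF, valN]
  have e5 : (π (posF h d 5)).val = 30 * M + (d 9).val + 1 := by rw [hπ]; simp [valF, valN]
  have e6 : (π (posF h d 6)).val = 30 * M + (d 9).val := by rw [hπ]; simp [valF, valN]
  have e7 : (π (posF h d 7)).val = n - 2 := by rw [hπ]; simp [valF, valN]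
  have e8 : (π (posF h d 8)).val = 1 := by rw [hπ]; simp [valF, valN]
  have e9 : (π (posF h d 9)).val = 12 * M + (d 7).val := by rw [hπ]; simp [valF, valN]
  have p0 : (posF h d 0).val = 0 := by simp [posF, posN]
  have p1 : (posF h d 1).val = 1 + (d 2).val := by simp [posF, posN]
  have p2 : (posF h d 2).val = M + 1 + (d 3).val := by simp [posF, posN]
  have p3 : (posF h d 3).val = 10 * M + 2 * (d 0).val := by simp [posF, posN]
  have p4 : (posF h d 4).val = 10 * M + 2 * (d 0).val + 1 := by simp [posF, posN]
  have p5 : (posF h d 5).val = 20 * M + 2 * (d 1).val := by simp [posF, posN]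
  have p6 : (posF h d 6).val = 20 * M + 2 * (d 1).val + 1 := by simp [posF, posN]
  have p7 : (posF h d 7).val = n - 2 - M - (d 5).val := by simp [posF, posN]
  have p8 : (posF h d 8).val = n - 2 - (d 4).val := by simp [posF, posN]
  have p9 : (posF h d 9).val = n - 1 := by simp [posF, posN]
  have z0 : ∀ z : Fin n, z.val = 0 → z = posF h d 0 := fun z hz => Fin.ext (by omega)
  have z1 : ∀ z : Fin n, z.val + 1 = n → z = posF h d 9 := fun z hz => Fin.ext (by omega)
  constructor
  · refine ⟨{ q := posF h d 3, q' := posF h d 4, a := posF h d 1, b := posF h d 8,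
              t := posF h d 2, u := posF h d 7, hq := by omega, hπq := by omega, ha := e1,
              hb := e8, ht := by omega, hu := by omega, hab := by omega, ha1 := by omega,
              htu := by omega, htq := by omega, h0 := ?_, h1 := ?_ }⟩
    · intro z hz
      rw [z0 z hz]; omega
    · intro z hz
      rw [z1 z hz]; omega
  · have c := compl_val π
    refine ⟨{ q := posF h d 5, q' := posF h d 6, a := posF h d 2, b := posF h d 7,
              t := posF h d 1, u := posF h d 8, hq := by omega, hπq := ?_, ha := ?_,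
              hb := ?_, ht := ?_, hu := ?_, hab := by omega, ha1 := by omega,
              htu := by omega, htq := by omega, h0 := ?_, h1 := ?_ }⟩
    · have := c (posF h d 5); have := c (posF h d 6); omega
    · have := c (posF h d 2); omega
    · have := c (posF h d 7); omega
    · have := c (posF h d 1); omega
    · have := c (posF h d 8); omega
    · intro z hz
      rw [z0 z hz]
      have := c (posF h d 0); omega
    · intro z hz
      rw [z1 z hz]
      have := c (posF h d 9); omega

/-- an increasing adjacency at the even offset `i` -/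
def adjL (π : Perm (Fin n)) (x : ℕ) : Prop :=
  ∃ (y z : Fin n), y.val = x ∧ z.val = x + 1 ∧ (π z).val = (π y).val + 1

/-- a decreasing adjacency -/
def adjR (π : Perm (Fin n)) (x : ℕ) : Prop :=
  ∃ (y z : Fin n), y.val = x ∧ z.val = x + 1 ∧ (π y).val = (π z).val + 1

theorem adj_of_mem (h : 100 * M ≤ n) (d : Fin 10 → Fin M) {π : Perm (Fin n)}
    (hπ : π ∈ agree (posF h d) (valF h d)) :
    adjL π (10 * M + 2 * (d 0).val) ∧ adjR π (20 * M + 2 * (d 1).val) := by
  rw [mem_agree] at hπ
  constructor
  · refine ⟨posF h d 3, posF h d 4, by simp [posF, posN], by simp [posF, posN], ?_⟩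
    rw [hπ, hπ]; simp [valF, valN]
  · refine ⟨posF h d 5, posF h d 6, by simp [posF, posN], by simp [posF, posN], ?_⟩
    rw [hπ, hπ]; simp [valF, valN]

theorem data_unique (h : 100 * M ≤ n) (d d' : Fin 10 → Fin M) {π : Perm (Fin n)}
    (hπ : π ∈ agree (posF h d) (valF h d)) (hπ' : π ∈ agree (posF h d') (valF h d'))
    (h0 : d 0 = d' 0) (h1 : d 1 = d' 1) : d = d' := by
  rw [mem_agree] at hπ hπ'
  have hM := M_pos d
  have a4 := (d 4).isLt
  have a5 := (d 5).isLt
  have b4 := (d' 4).isLt
  have b5 := (d' 5).isLt
  have key : ∀ k, posF h d k = posF h d' k → valN n M d k = valN n M d' k := by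
    intro k hk
    have h2 := hπ k
    have h3 := hπ' k
    rw [hk, h3] at h2
    exact (congrArg Fin.val h2).symm
  have key2 : ∀ k, valF h d k = valF h d' k → posN n M d k = posN n M d' k := by
    intro k hk
    have h2 := hπ k
    have h3 := hπ' k
    rw [hk, ← h3] at h2
    exact congrArg Fin.val (π.injective h2)
  have f6 : d 6 = d' 6 := by
    have := key 0 (by simp [posF, posN])
    simp [valN] at this
    exact Fin.ext this
  have f7 : d 7 = d' 7 := by
    have := key 9 (by simp [posF, posN])
    simp [valN] at this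
    exact Fin.ext this
  have f8 : d 8 = d' 8 := by
    have := key 3 (by simp [posF, posN, h0])
    simp [valN] at this
    exact Fin.ext this
  have f9 : d 9 = d' 9 := by
    have := key 6 (by simp [posF, posN, h1])
    simp [valN] at this
    exact Fin.ext this
  have f2 : d 2 = d' 2 := by
    have := key2 1 (by simp [valF, valN])
    simp [posN] at this
    exact Fin.ext this
  have f3 : d 3 = d' 3 := by
    have := key2 2 (by simp [valF, valN])
    simp [posN] at this
    exact Fin.ext this
  have f4 : d 4 = d' 4 := by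
    have := key2 8 (by simp [valF, valN])
    simp [posN] at this
    exact Fin.ext (by omega)
  have f5 : d 5 = d' 5 := by
    have := key2 7 (by simp [valF, valN])
    simp [posN] at this
    exact Fin.ext (by omega)
  funext k
  fin_cases k
  · exact h0
  · exact h1
  · exact f2
  · exact f3
  · exact f4
  · exact f5
  · exact f6
  · exact f7
  · exact f8
  · exact f9

end Pool.Agent.W6.PS
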