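import Mathlib

/-!
Pattern containment, colourings of permutations and unsplittable permutation classes.
-/

namespace Pool.Agent.W6.PS

/-- The entries of `τ` at the positions `f 0 < f 1 < ...` form a copy of `σ`. -/
def IsCopy {k m : ℕ} (σ : Equiv.Perm (Fin k)) (τ : Equiv.Perm (Fin m)) (f : Fin k → Fin m) :
    Prop :=
  (∀ i j, i < j → f i < f j) ∧ (∀ i j, σ i < σ j ↔ τ (f i) < τ (f j))

/-- `τ` contains the pattern `σ`. -/
def Contains {m k : ℕ} (τ : Equiv.Perm (Fin m)) (σ : Equiv.Perm (Fin k)) : Prop :=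
  ∃ f, IsCopy σ τ f

/-- `Av(π)`: all permutations (of all finite sizes) not containing `π`. -/
def Av {n : ℕ} (π : Equiv.Perm (Fin n)) : Set (Σ m : ℕ, Equiv.Perm (Fin m)) :=
  {τ | ¬ Contains τ.2 π}

/-- In the colouring `c` of the entries (indexed by their positions) of `τ`, the entries of
colour `b` contain a copy of `σ`. -/
def ColouredCopy {k m : ℕ} (σ : Equiv.Perm (Fin k)) (τ : Equiv.Perm (Fin m)) (c : Fin m → Bool)
    (b : Bool) : Prop :=
  ∃ f, IsCopy σ τ f ∧ ∀ i, c (f i) = b

/-- A permutation class is unsplittable if for all `σ, ρ` in it there is `τ` in it such that every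
red-blue colouring of the entries of `τ` has a red copy of `σ` or a blue copy of `ρ`. -/
def Unsplittable (C : Set (Σ m : ℕ, Equiv.Perm (Fin m))) : Prop :=
  ∀ σ ∈ C, ∀ ρ ∈ C, ∃ τ ∈ C, ∀ c : Fin τ.1 → Bool,
    ColouredCopy σ.2 τ.2 c true ∨ ColouredCopy ρ.2 τ.2 c false

open Classical in
/-- The probability that `Av(π)` is unsplittable for a uniformly random permutation `π` of size
`n`. -/
noncomputable def p (n : ℕ) : ℝ :=
  ((Finset.univ.filter (fun π : Equiv.Perm (Fin n) => Unsplittable (Av π))).card : ℝ) /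
    (n.factorial : ℝ)

end Pool.Agent.W6.PS
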