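import Pool.Agent.W6.PS.Moment

namespace Pool.Agent.W6.PS

open Equiv Finset

variable {n M : ℕ}

open Classical in
/-- number of decorations of `π` -/
noncomputable def mult (h : 100 * M ≤ n) (π : Perm (Fin n)) : ℕ :=
  (Finset.univ.filter (fun d : Fin 10 → Fin M => π ∈ agree (posF h d) (valF h d))).card

open Classical in
theorem sum_mult (h : 100 * M ≤ n) :
    ∑ π : Perm (Fin n), (mult h π : ℝ) = (M : ℝ) ^ 10 * ((n - 10).factorial : ℝ) := by
  have h1 : ∀ π : Perm (Fin n), (mult h π : ℝ) = ∑ d : Fin 10 → Fin M,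
      if π ∈ agree (posF h d) (valF h d) then (1 : ℝ) else 0 := by
    intro π
    unfold mult
    rw [Finset.card_filter]
    push_cast
    rfl
  simp_rw [h1]
  rw [Finset.sum_comm]
  have h2 : ∀ d : Fin 10 → Fin M, ∑ π : Perm (Fin n),
      (if π ∈ agree (posF h d) (valF h d) then (1 : ℝ) else 0) = ((n - 10).factorial : ℝ) := by
    intro d
    rw [← card_E h d, ← Finset.sum_filter, Finset.filter_mem_eq_inter, Finset.univ_inter]
    simp
  simp_rw [h2]
  rw [Finset.sum_const, Finset.card_univ, Fintype.card_fun, Fintype.card_fin, Fintype.card_fin,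
    nsmul_eq_mul]
  push_cast
  rfl

open Classical in
theorem mult_le (h : 100 * M ≤ n) (π : Perm (Fin n)) :
    (mult h π : ℝ) ≤ ((SX M π).card : ℝ) * ((SY M π).card : ℝ) := by
  have : mult h π ≤ ((SX M π) ×ˢ (SY M π)).card := by
    unfold mult
    refine Finset.card_le_card_of_injOn (fun d => (d 0, d 1)) ?_ ?_
    · intro d hd
      simp only [Finset.coe_filter, Finset.mem_univ, true_and, Set.mem_ofPred_eq] at hd
      have := adj_of_mem h d hd
      simp only [Finset.coe_product, Set.mem_prod, Finset.mem_coe, SX, SY, Finset.mem_filter,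
        Finset.mem_univ, true_and]
      exact this
    · intro d hd d' hd' hdd
      simp only [Finset.coe_filter, Finset.mem_univ, true_and, Set.mem_ofPred_eq] at hd hd'
      simp only [Prod.mk.injEq] at hdd
      exact data_unique h d d' hd hd' hdd.1 hdd.2
  rw [Finset.card_product] at this
  exact_mod_cast this

theorem good_of_mult (h : 100 * M ≤ n) (π : Perm (Fin n)) (hm : mult h π ≠ 0) :
    ¬ Unsplittable (Av π) := by
  classical
  unfold mult at hm
  rw [Finset.card_ne_zero] at hm
  obtain ⟨d, hd⟩ := hm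
  rw [Finset.mem_filter] at hd
  obtain ⟨⟨K⟩, ⟨K'⟩⟩ := good h d hd.2
  exact not_unsplittable π K K'

open Classical in
theorem many_bad (h : 100 * M ≤ n) (hn : 16 ≤ n) :
    ((M : ℝ) ^ 10 * ((n - 10).factorial : ℝ)) ^ 2 ≤
      ((Finset.univ.filter (fun π : Perm (Fin n) => ¬ Unsplittable (Av π))).card : ℝ) *
        (256 * (n.factorial : ℝ)) := by
  have h1 := Finset.sum_mul_sq_le_sq_mul_sq (Finset.univ : Finset (Perm (Fin n)))
    (fun π => if ¬ Unsplittable (Av π) then (1 : ℝ) else 0) (fun π => (mult h π : ℝ))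
  have h2 : ∑ π : Perm (Fin n), (if ¬ Unsplittable (Av π) then (1 : ℝ) else 0) * (mult h π : ℝ) =
      ∑ π : Perm (Fin n), (mult h π : ℝ) := by
    refine Finset.sum_congr rfl (fun π _ => ?_)
    by_cases hm : mult h π = 0
    · simp [hm]
    · rw [if_pos (good_of_mult h π hm), one_mul]
  have h3 : ∑ π : Perm (Fin n), (if ¬ Unsplittable (Av π) then (1 : ℝ) else 0) ^ 2 =
      ((Finset.univ.filter (fun π : Perm (Fin n) => ¬ Unsplittable (Av π))).card : ℝ) := by
    rw [Finset.card_filter]
    push_cast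
    refine Finset.sum_congr rfl (fun π _ => ?_)
    split_ifs <;> norm_num
  have h4 : ∑ π : Perm (Fin n), (mult h π : ℝ) ^ 2 ≤ 256 * (n.factorial : ℝ) := by
    refine le_trans (Finset.sum_le_sum (fun π _ => ?_)) (second_moment h hn)
    exact pow_le_pow_left₀ (by positivity) (mult_le h π) 2
  rw [h2, h3, sum_mult h] at h1
  refine h1.trans ?_
  exact mul_le_mul_of_nonneg_left h4 (by positivity)

/-- for all `n ≥ 100`, `p n ≤ 1 - ε`. -/
theorem p_le (hn : 100 ≤ n) : p n ≤ 1 - 1 / (256 * (200 : ℝ) ^ 20) := by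
  classical
  set M := n / 100 with hM
  have h : 100 * M ≤ n := Nat.mul_div_le n 100
  have hM2 : (n : ℝ) / 200 ≤ M := by
    have h1 : n < 100 * (M + 1) := by rw [hM]; omega
    have h2 : 1 ≤ M := by rw [hM]; omega
    have h3 : (n : ℝ) < 100 * ((M : ℝ) + 1) := by exact_mod_cast h1
    have h4 : (1 : ℝ) ≤ M := by exact_mod_cast h2
    linarith
  have hfac : (0 : ℝ) < (n.factorial : ℝ) := by exact_mod_cast n.factorial_pos
  have h1 := many_bad h (by omega : 16 ≤ n)
  set B := ((Finset.univ.filter (fun π : Perm (Fin n) => ¬ Unsplittable (Av π))).card : ℝ) with hB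
  have h2 : (n.factorial : ℝ) / 200 ^ 10 ≤ (M : ℝ) ^ 10 * ((n - 10).factorial : ℝ) := by
    have h3 : (n.factorial : ℝ) ≤ (n : ℝ) ^ 10 * ((n - 10).factorial : ℝ) := by
      have h4 := Nat.factorial_mul_descFactorial (show 10 ≤ n by omega)
      have h5 := Nat.descFactorial_le_pow n 10
      have : n.factorial ≤ n ^ 10 * (n - 10).factorial := by
        rw [← h4, mul_comm]
        exact Nat.mul_le_mul_right _ h5
      exact_mod_cast this
    have h6 : ((n : ℝ) / 200) ^ 10 ≤ (M : ℝ) ^ 10 := pow_le_pow_left₀ (by positivity) hM2 10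
    calc (n.factorial : ℝ) / 200 ^ 10 ≤ ((n : ℝ) ^ 10 * ((n - 10).factorial : ℝ)) / 200 ^ 10 := by
          gcongr
      _ = ((n : ℝ) / 200) ^ 10 * ((n - 10).factorial : ℝ) := by rw [div_pow]; ring
      _ ≤ _ := mul_le_mul_of_nonneg_right h6 (by positivity)
  have h3 : ((n.factorial : ℝ) / 200 ^ 10) ^ 2 ≤ B * (256 * (n.factorial : ℝ)) :=
    (pow_le_pow_left₀ (by positivity) h2 2).trans h1
  have h4 : (n.factorial : ℝ) / (256 * 200 ^ 20) ≤ B := by
    have h5 : ((n.factorial : ℝ) / 200 ^ 10) ^ 2 =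
        ((n.factorial : ℝ) / (256 * 200 ^ 20)) * (256 * (n.factorial : ℝ)) := by
      field_simp
    rw [h5] at h3
    exact le_of_mul_le_mul_right h3 (by positivity)
  have h5 : ((Finset.univ.filter (fun π : Perm (Fin n) => Unsplittable (Av π))).card : ℝ) + B =
      (n.factorial : ℝ) := by
    have h6 := Finset.card_filter_add_card_filter_not (s := (Finset.univ : Finset (Perm (Fin n))))
      (fun π => Unsplittable (Av π))
    rw [Finset.card_univ, Fintype.card_perm, Fintype.card_fin] at h6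
    rw [hB, ← h6]
    push_cast
    rfl
  unfold p
  rw [div_le_iff₀ hfac]
  have h6 : (1 - 1 / (256 * (200 : ℝ) ^ 20)) * (n.factorial : ℝ) =
      (n.factorial : ℝ) - (n.factorial : ℝ) / (256 * 200 ^ 20) := by ring
  rw [h6]
  linarith

end Pool.Agent.W6.PS
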