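import Pool.Agent.W6.PS.Data

namespace Pool.Agent.W6.PS

open Equiv Finset

variable {n M : ℕ}

/-- adjacency attached to an index -/
def adjX (M : ℕ) (π : Perm (Fin n)) : Fin M ⊕ Fin M → Prop
  | Sum.inl i => adjL π (10 * M + 2 * i.val)
  | Sum.inr j => adjR π (20 * M + 2 * j.val)

/-- base position attached to an index -/
def baseX (M : ℕ) : Fin M ⊕ Fin M → ℕ
  | Sum.inl i => 10 * M + 2 * i.val
  | Sum.inr j => 20 * M + 2 * j.val

theorem baseX_lt (x : Fin M ⊕ Fin M) : baseX M x + 1 < 30 * M := by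
  rcases x with i | j
  · have := i.isLt; simp only [baseX]; omega
  · have := j.isLt; simp only [baseX]; omega

/-- position map -/
def posX (h : 100 * M ≤ n) (xb : (Fin M ⊕ Fin M) × Bool) : Fin n :=
  ⟨baseX M xb.1 + xb.2.toNat, by
    have := baseX_lt xb.1
    have : xb.2.toNat ≤ 1 := Bool.toNat_le xb.2
    omega⟩

theorem posX_inj (h : 100 * M ≤ n) : Function.Injective (posX h) := by
  rintro ⟨x, b⟩ ⟨y, c⟩ hxy
  have h1 := congrArg Fin.val hxy
  simp only [posX] at h1
  have hb : b.toNat ≤ 1 := Bool.toNat_le b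
  have hc : c.toNat ≤ 1 := Bool.toNat_le c
  have h2 : baseX M x = baseX M y ∧ b.toNat = c.toNat := by
    rcases x with i | i <;> rcases y with j | j <;> simp only [baseX] at h1 ⊢ <;>
      have := i.isLt <;> have := j.isLt <;> omega
  have h3 : x = y := by
    rcases x with i | i <;> rcases y with j | j <;> simp only [baseX] at h2 <;>
      have := i.isLt <;> have := j.isLt
    · congr 1; exact Fin.ext (by omega)
    · omega
    · omega
    · congr 1; exact Fin.ext (by omega)
  have h4 : b = c := by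
    have := h2.2
    revert this
    cases b <;> cases c <;> simp
  rw [h3, h4]

open Classical in
theorem card_Q (h : 100 * M ≤ n) (Q : Finset (Fin M ⊕ Fin M)) :
    (Finset.univ.filter (fun π : Perm (Fin n) => ∀ x ∈ Q, adjX M π x)).card ≤
      n ^ Q.card * (n - 2 * Q.card).factorial := by
  have := card_adj_le (κ := {x // x ∈ Q}) (fun kb => posX h (kb.1.1, kb.2)) (by
      rintro ⟨⟨x, hx⟩, b⟩ ⟨⟨y, hy⟩, c⟩ hxy
      have := posX_inj h hxy
      simp only [Prod.mk.injEq] at this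
      obtain ⟨h1, h2⟩ := this
      subst h1 h2
      rfl) (fun k => k.1.isLeft)
    (Finset.univ.filter (fun π : Perm (Fin n) => ∀ x ∈ Q, adjX M π x)) (by
      intro π hπ k
      rw [Finset.mem_filter] at hπ
      have h1 := hπ.2 k.1 k.2
      obtain ⟨x, hx⟩ := k
      rcases x with i | j
      · refine ⟨fun _ => ?_, fun h2 => by simp at h2⟩
        obtain ⟨y, z, hy, hz, hyz⟩ := h1
        have e1 : posX h (Sum.inl i, true) = z := Fin.ext (by
          rw [hz]; simp [posX, baseX])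
        have e2 : posX h (Sum.inl i, false) = y := Fin.ext (by
          rw [hy]; simp [posX, baseX])
        simp only
        rw [e1, e2]
        exact hyz
      · refine ⟨fun h2 => by simp at h2, fun _ => ?_⟩
        obtain ⟨y, z, hy, hz, hyz⟩ := h1
        have e1 : posX h (Sum.inr j, true) = z := Fin.ext (by
          rw [hz]; simp [posX, baseX])
        have e2 : posX h (Sum.inr j, false) = y := Fin.ext (by
          rw [hy]; simp [posX, baseX])
        simp only
        rw [e1, e2]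
        exact hyz)
  rw [Fintype.card_coe] at this
  exact this

/-- `n^r (n-2r)! ≤ 256 n! / n^r` for `r ≤ 4`. -/
theorem fact_bound (hn : 16 ≤ n) (r : ℕ) (hr : r ≤ 4) :
    ((n : ℝ) ^ r * ((n - 2 * r).factorial : ℝ)) ≤ 256 * (n.factorial : ℝ) / (n : ℝ) ^ r := by
  have hn0 : (0 : ℝ) < n := by exact_mod_cast (by omega : 0 < n)
  have h1 : (n - 2 * r).factorial * (n - 2 * r) ^ (n - (n - 2 * r)) ≤ n.factorial :=
    Nat.factorial_mul_pow_sub_le_factorial (by omega)
  have h2 : n - (n - 2 * r) = 2 * r := by omega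
  rw [h2] at h1
  have h3 : ((n - 2 * r).factorial : ℝ) * ((n : ℝ) / 2) ^ (2 * r) ≤ (n.factorial : ℝ) := by
    have h4 : ((n - 2 * r).factorial : ℝ) * (((n - 2 * r : ℕ) : ℝ)) ^ (2 * r) ≤
        (n.factorial : ℝ) := by exact_mod_cast h1
    refine le_trans ?_ h4
    apply mul_le_mul_of_nonneg_left _ (by positivity)
    apply pow_le_pow_left₀ (by positivity)
    rw [Nat.cast_sub (by omega)]
    push_cast
    have : (16 : ℝ) ≤ n := by exact_mod_cast hn
    have : (r : ℝ) ≤ 4 := by exact_mod_cast hr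
    linarith
  rw [le_div_iff₀ (by positivity)]
  have h5 : (n : ℝ) ^ r * ((n - 2 * r).factorial : ℝ) * (n : ℝ) ^ r =
      4 ^ r * (((n - 2 * r).factorial : ℝ) * ((n : ℝ) / 2) ^ (2 * r)) := by
    rw [div_pow, pow_mul 2 2 r]
    norm_num
    rw [pow_mul]
    field_simp
    rw [← pow_mul, ← pow_mul, mul_comm]
  rw [h5]
  have h6 : (4 : ℝ) ^ r ≤ 256 := by
    calc (4 : ℝ) ^ r ≤ 4 ^ 4 := pow_le_pow_right₀ (by norm_num) hr
      _ = 256 := by norm_num
  exact mul_le_mul h6 h3 (by positivity) (by norm_num)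

/-- weight -/
noncomputable def w (n : ℕ) (i i' : Fin M) : ℝ := if i = i' then 1 / n else 1 / (n : ℝ) ^ 2

theorem w_nonneg (i i' : Fin M) : 0 ≤ w n i i' := by
  unfold w; split_ifs <;> positivity

theorem sum_w (h : 100 * M ≤ n) (hn : 0 < n) : ∑ i : Fin M, ∑ i' : Fin M, w n i i' ≤ 1 := by
  have hn0 : (0 : ℝ) < n := by exact_mod_cast hn
  have hM : (M : ℝ) ≤ n / 100 := by
    have : ((100 * M : ℕ) : ℝ) ≤ n := by exact_mod_cast h
    push_cast at this
    linarith
  have h1 : ∀ i i' : Fin M, w n i i' ≤ (if i = i' then 1 / (n : ℝ) else 0) + 1 / (n : ℝ) ^ 2 := by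
    intro i i'
    unfold w
    split_ifs
    · have : 0 ≤ 1 / (n : ℝ) ^ 2 := by positivity
      linarith
    · simp
  calc ∑ i : Fin M, ∑ i' : Fin M, w n i i' ≤
      ∑ i : Fin M, ∑ i' : Fin M, ((if i = i' then 1 / (n : ℝ) else 0) + 1 / (n : ℝ) ^ 2) :=
        Finset.sum_le_sum (fun i _ => Finset.sum_le_sum (fun i' _ => h1 i i'))
    _ = M / n + (M : ℝ) ^ 2 / (n : ℝ) ^ 2 := by
        simp only [Finset.sum_add_distrib, Finset.sum_ite_eq, Finset.mem_univ, if_true,
          Finset.sum_const, Finset.card_univ, Fintype.card_fin, nsmul_eq_mul]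
        ring
    _ ≤ 1 / 100 + (1 / 100) ^ 2 := by
        have h2 : (M : ℝ) / n ≤ 1 / 100 := by
          rw [div_le_iff₀ hn0]; linarith
        have h3 : (M : ℝ) ^ 2 / (n : ℝ) ^ 2 = ((M : ℝ) / n) ^ 2 := by rw [div_pow]
        rw [h3]
        have h4 : 0 ≤ (M : ℝ) / n := by positivity
        have h5 := pow_le_pow_left₀ h4 h2 2
        linarith
    _ ≤ 1 := by norm_num

open Classical in
/-- increasing adjacencies -/
noncomputable def SX (M : ℕ) (π : Perm (Fin n)) : Finset (Fin M) :=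
  Finset.univ.filter (fun i => adjL π (10 * M + 2 * i.val))

open Classical in
/-- decreasing adjacencies -/
noncomputable def SY (M : ℕ) (π : Perm (Fin n)) : Finset (Fin M) :=
  Finset.univ.filter (fun i => adjR π (20 * M + 2 * i.val))

theorem pair_card (i i' j j' : Fin M) :
    (({Sum.inl i, Sum.inl i', Sum.inr j, Sum.inr j'} : Finset (Fin M ⊕ Fin M))).card =
      (if i = i' then 1 else 2) + (if j = j' then 1 else 2) := by
  by_cases h1 : i = i' <;> by_cases h2 : j = j'
  · subst h1 h2; simp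
  · subst h1; simp [h2]
  · subst h2; simp [h1]
  · simp [h1, h2]

open Classical in
theorem second_moment (h : 100 * M ≤ n) (hn : 16 ≤ n) :
    ∑ π : Perm (Fin n), (((SX M π).card : ℝ) * ((SY M π).card : ℝ)) ^ 2 ≤
      256 * (n.factorial : ℝ) := by
  have hn0 : (0 : ℝ) < n := by exact_mod_cast (by omega : 0 < n)
  have e1 : ∀ π : Perm (Fin n), (((SX M π).card : ℝ) * ((SY M π).card : ℝ)) ^ 2 =
      ∑ t : (Fin M × Fin M) × (Fin M × Fin M),
        if (∀ x ∈ ({Sum.inl t.1.1, Sum.inl t.1.2, Sum.inr t.2.1, Sum.inr t.2.2} :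
          Finset (Fin M ⊕ Fin M)), adjX M π x) then (1 : ℝ) else 0 := by
    intro π
    have h1 : (((SX M π).card : ℝ) * ((SY M π).card : ℝ)) ^ 2 =
        ((((SX M π) ×ˢ (SX M π)) ×ˢ ((SY M π) ×ˢ (SY M π))).card : ℝ) := by
      rw [Finset.card_product, Finset.card_product, Finset.card_product]
      push_cast
      ring
    rw [h1]
    have h2 : ((SX M π) ×ˢ (SX M π)) ×ˢ ((SY M π) ×ˢ (SY M π)) =
        Finset.univ.filter (fun t : (Fin M × Fin M) × (Fin M × Fin M) =>
          ∀ x ∈ ({Sum.inl t.1.1, Sum.inl t.1.2, Sum.inr t.2.1, Sum.inr t.2.2} :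
          Finset (Fin M ⊕ Fin M)), adjX M π x) := by
      ext ⟨⟨i, i'⟩, ⟨j, j'⟩⟩
      simp only [Finset.mem_product, SX, SY, Finset.mem_filter, Finset.mem_univ, true_and,
        Finset.mem_insert, Finset.mem_singleton, forall_eq_or_imp, forall_eq, adjX]
      tauto
    rw [h2, Finset.card_filter]
    push_cast
    rfl
  simp_rw [e1]
  rw [Finset.sum_comm]
  have e2 : ∀ t : (Fin M × Fin M) × (Fin M × Fin M),
      ∑ π : Perm (Fin n), (if (∀ x ∈ ({Sum.inl t.1.1, Sum.inl t.1.2, Sum.inr t.2.1,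
        Sum.inr t.2.2} : Finset (Fin M ⊕ Fin M)), adjX M π x) then (1 : ℝ) else 0) ≤
      256 * (n.factorial : ℝ) * (w n t.1.1 t.1.2 * w n t.2.1 t.2.2) := by
    rintro ⟨⟨i, i'⟩, ⟨j, j'⟩⟩
    have h1 : ∑ π : Perm (Fin n), (if (∀ x ∈ ({Sum.inl i, Sum.inl i', Sum.inr j,
        Sum.inr j'} : Finset (Fin M ⊕ Fin M)), adjX M π x) then (1 : ℝ) else 0) =
        ((Finset.univ.filter (fun π : Perm (Fin n) => ∀ x ∈ ({Sum.inl i, Sum.inl i', Sum.inr j,
        Sum.inr j'} : Finset (Fin M ⊕ Fin M)), adjX M π x)).card : ℝ) := by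
      rw [Finset.card_filter]
      push_cast
      rfl
    simp only
    rw [h1]
    set Q : Finset (Fin M ⊕ Fin M) := {Sum.inl i, Sum.inl i', Sum.inr j, Sum.inr j'} with hQ
    have hQc := pair_card i i' j j'
    rw [← hQ] at hQc
    have h2 : ((Finset.univ.filter (fun π : Perm (Fin n) => ∀ x ∈ Q, adjX M π x)).card : ℝ) ≤
        (n : ℝ) ^ Q.card * ((n - 2 * Q.card).factorial : ℝ) := by
      exact_mod_cast card_Q h Q
    have hr : Q.card ≤ 4 := by rw [hQc]; split_ifs <;> omega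
    refine h2.trans ((fact_bound hn Q.card hr).trans ?_)
    rw [hQc]
    unfold w
    split_ifs
    · apply le_of_eq; field_simp
    · apply le_of_eq; field_simp
    · apply le_of_eq; field_simp
    · apply le_of_eq; field_simp
  refine (Finset.sum_le_sum (fun t _ => e2 t)).trans ?_
  rw [← Finset.mul_sum]
  have e3 : ∑ t : (Fin M × Fin M) × (Fin M × Fin M), w n t.1.1 t.1.2 * w n t.2.1 t.2.2 =
      (∑ i : Fin M, ∑ i' : Fin M, w n i i') ^ 2 := by
    rw [Fintype.sum_prod_type]
    simp_rw [← Finset.mul_sum]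
    rw [← Finset.sum_mul, Fintype.sum_prod_type, sq]
  rw [e3]
  have h4 := sum_w h (by omega : 0 < n)
  have h5 : 0 ≤ ∑ i : Fin M, ∑ i' : Fin M, w n i i' :=
    Finset.sum_nonneg (fun i _ => Finset.sum_nonneg (fun i' _ => w_nonneg i i'))
  have h6 : (∑ i : Fin M, ∑ i' : Fin M, w n i i') ^ 2 ≤ 1 := by
    have := pow_le_pow_left₀ h5 h4 2
    simpa using this
  have h7 : (0 : ℝ) ≤ 256 * (n.factorial : ℝ) := by positivity
  calc 256 * (n.factorial : ℝ) * (∑ i : Fin M, ∑ i' : Fin M, w n i i') ^ 2 ≤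
      256 * (n.factorial : ℝ) * 1 := mul_le_mul_of_nonneg_left h6 h7
    _ = _ := by ring

end Pool.Agent.W6.PS
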